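import Mathlib
import Pool.Agent.H48.Wr

set_option autoImplicit false

namespace Pool.Agent.Results.MP_cd75ba_ag.Fifteen

open Polynomial

/- The form F_d. -/
def F (d : ℕ) (x : Fin 6 → ℂ) : ℂ :=
  x 0 ^ d + x 1 ^ d + x 2 ^ d - x 3 ^ d - x 4 ^ d - x 5 ^ d

/- A smooth plane conic in P^5: a plane (image of an injective linear map from C^3 to C^6) and a
nondegenerate quadratic form on it. -/
structure Conic where
  L : (Fin 3 → ℂ) →ₗ[ℂ] (Fin 6 → ℂ)
  inj : Function.Injective L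
  Q : QuadraticForm ℂ (Fin 3 → ℂ)
  nondeg : (QuadraticMap.associated (R := ℂ) Q).SeparatingLeft

/- The affine cone over the conic. -/
def Conic.cone (K : Conic) : Set (Fin 6 → ℂ) := K.L '' {v | K.Q v = 0}

def Conic.OnX (K : Conic) (d : ℕ) : Prop := ∀ x ∈ K.cone, F d x = 0

def Conic.Degenerate (K : Conic) : Prop :=
  ∃ i j : Fin 6, i ≠ j ∧ ∃ a b : ℂ, (a ≠ 0 ∨ b ≠ 0) ∧ ∀ x ∈ K.cone, a * x i - b * x j = 0

noncomputable def Q0 : QuadraticForm ℂ (Fin 3 → ℂ) :=
  QuadraticMap.weightedSumSquares ℂ (1 : Fin 3 → ℂ)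

lemma Q0_apply (v : Fin 3 → ℂ) : Q0 v = v 0 ^ 2 + v 1 ^ 2 + v 2 ^ 2 := by
  simp [Q0, QuadraticMap.weightedSumSquares_apply, Fin.sum_univ_three]; ring

lemma Q0_nondeg : (QuadraticMap.associated (R := ℂ) Q0).SeparatingLeft := by
  intro v hv
  have h : ∀ w : Fin 3 → ℂ, v 0 * w 0 + v 1 * w 1 + v 2 * w 2 = 0 := by
    intro w
    have := hv w
    rw [QuadraticMap.associated_apply] at this
    simp only [Q0_apply, Pi.add_apply, Module.End.smul_def] at this
    have h2 : (v 0 + w 0) ^ 2 + (v 1 + w 1) ^ 2 + (v 2 + w 2) ^ 2 - (v 0 ^ 2 + v 1 ^ 2 + v 2 ^ 2)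
        - (w 0 ^ 2 + w 1 ^ 2 + w 2 ^ 2) = 0 := by simpa using this
    linear_combination h2 / 2
  funext i
  fin_cases i
  · simpa using h ![1, 0, 0]
  · simpa using h ![0, 1, 0]
  · simpa using h ![0, 0, 1]

lemma param (K : Conic) : ∃ u v w : Fin 3 → ℂ,
    (∀ s t : ℂ, K.Q ((s ^ 2) • u + (s * t) • v + (t ^ 2) • w) = 0) ∧
      ∀ x, ∃ a b c : ℂ, x = a • u + b • v + c • w := by
  obtain ⟨e⟩ := QuadraticForm.equivalent_of_isAlgClosed Q0 K.Q Q0_nondeg K.nondeg
  refine ⟨e ![1, Complex.I, 0], e ![0, 0, 2], e ![-1, Complex.I, 0], fun s t => ?_, fun x => ?_⟩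
  · rw [← map_smul, ← map_smul, ← map_smul, ← map_add, ← map_add, e.map_app, Q0_apply]
    simp
    linear_combination (s ^ 2 + t ^ 2) ^ 2 * Complex.I_sq
  · obtain ⟨y, rfl⟩ := e.toLinearEquiv.surjective x
    refine ⟨(y 0 - Complex.I * y 1) / 2, y 2 / 2, (- y 0 - Complex.I * y 1) / 2, ?_⟩
    rw [← map_smul, ← map_smul, ← map_smul, ← map_add, ← map_add]
    change e y = _
    congr 1
    funext i
    fin_cases i
    · simp; ring
    · simp; linear_combination (y 1) * Complex.I_sq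
    · simp

lemma upper (d : ℕ) (hd : 15 ≤ d) (K : Conic) (hK : K.OnX d) : K.Degenerate := by
  obtain ⟨u, v, w, hQ, hsp⟩ := param K
  obtain ⟨A, hA⟩ : ∃ A, A = K.L u := ⟨_, rfl⟩
  obtain ⟨B, hB⟩ : ∃ B, B = K.L v := ⟨_, rfl⟩
  obtain ⟨D, hD⟩ : ∃ D, D = K.L w := ⟨_, rfl⟩
  have hdeg : ∀ i j, i ≠ j → ∀ a b : ℂ, a ≠ 0 → a * A i = b * A j → a * B i = b * B j →
      a * D i = b * D j → K.Degenerate := by
    intro i j hij a b ha h1 h2 h3
    refine ⟨i, j, hij, a, b, Or.inl ha, ?_⟩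
    rintro _ ⟨x, _, rfl⟩
    obtain ⟨p, q, r, rfl⟩ := hsp x
    simp only [map_add, map_smul, ← hA, ← hB, ← hD, Pi.add_apply, Pi.smul_apply, smul_eq_mul]
    linear_combination p * h1 + q * h2 + r * h3
  by_cases hz : ∃ i, A i = 0 ∧ B i = 0 ∧ D i = 0
  · obtain ⟨i, h1, h2, h3⟩ := hz
    obtain ⟨j, hj⟩ := exists_ne i
    exact hdeg i j hj.symm 1 0 one_ne_zero (by simp [h1]) (by simp [h2]) (by simp [h3])
  have hp : ∀ i, (C (A i) * X ^ 2 + C (B i) * X + C (D i) : ℂ[X]) ≠ 0 := by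
    intro i h0
    apply hz
    refine ⟨i, ?_, ?_, ?_⟩
    · simpa using congrArg (fun p => coeff p 2) h0
    · simpa using congrArg (fun p => coeff p 1) h0
    · simpa using congrArg (fun p => coeff p 0) h0
  obtain ⟨μ, hμ⟩ : ∃ μ : ℂ, ∀ i, A i * μ ^ 2 + B i * μ + D i ≠ 0 := by
    by_contra hcon
    push Not at hcon
    apply Finset.prod_ne_zero_iff.2 (fun i (_ : i ∈ Finset.univ) => hp i)
    apply Polynomial.funext
    intro r
    obtain ⟨i, hi⟩ := hcon r
    rw [eval_prod, eval_zero]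
    exact Finset.prod_eq_zero (Finset.mem_univ i) (by simpa using hi)
  obtain ⟨g, hg⟩ : ∃ g : Fin 6 → ℂ[X], g = fun i => C (A i * μ ^ 2 + B i * μ + D i) * X ^ 2
      + C (2 * μ * A i + B i) * X + C (A i) := ⟨_, rfl⟩
  have hg2 : ∀ i, (g i).natDegree = 2 := fun i => by rw [hg]; exact natDegree_quadratic (hμ i)
  have hg0 : ∀ i, g i ≠ 0 := fun i h => by have := hg2 i; rw [h] at this; simp at this
  obtain ⟨i, j, hij, a, b, ha, hab⟩ := H48.Wr.six hd g hg0 hg2 ![1, 1, 1, -1, -1, -1]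
    (fun h => by simpa using congrFun h 0) (by
      apply Polynomial.funext
      intro t
      have h1 := hK _ ⟨_, hQ (1 + μ * t) t, rfl⟩
      have h2 : ∀ i, (g i).eval t =
          K.L (((1 + μ * t) ^ 2) • u + ((1 + μ * t) * t) • v + (t ^ 2) • w) i := by
        intro i
        simp only [hg, map_add, map_smul, ← hA, ← hB, ← hD, Pi.add_apply, Pi.smul_apply,
          smul_eq_mul, eval_add, eval_mul, eval_C, eval_pow, eval_X]
        ring
      unfold F at h1
      simp only [← h2] at h1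
      rw [Fin.sum_univ_six]
      simp
      linear_combination h1)
  have c2 := congrArg (fun p => coeff p 2) hab
  have c1 := congrArg (fun p => coeff p 1) hab
  have c0 := congrArg (fun p => coeff p 0) hab
  simp only [hg, coeff_C_mul, coeff_add, coeff_X_pow, coeff_X, coeff_C] at c2 c1 c0
  norm_num at c2 c1 c0
  refine hdeg i j hij a b ha c0 ?_ ?_
  · linear_combination c1 - 2 * μ * c0
  · linear_combination c2 - μ * c1 + μ ^ 2 * c0

lemma pair (p : ℂ) (hp : p ^ 2 = p + 1) (y z : ℂ) :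
    (y + p * z) ^ 14 + (y - p * z) ^ 14 = 2 * ((y ^ 2) ^ 7 + 91 * (y ^ 2) ^ 6 * z ^ 2 * (p + 1)
      + 1001 * (y ^ 2) ^ 5 * (z ^ 2) ^ 2 * (3 * p + 2)
      + 3003 * (y ^ 2) ^ 4 * (z ^ 2) ^ 3 * (8 * p + 5)
      + 3003 * (y ^ 2) ^ 3 * (z ^ 2) ^ 4 * (21 * p + 13)
      + 1001 * (y ^ 2) ^ 2 * (z ^ 2) ^ 5 * (55 * p + 34)
      + 91 * (y ^ 2) * (z ^ 2) ^ 6 * (144 * p + 89) + (z ^ 2) ^ 7 * (377 * p + 233)) := by
  have h4 : p ^ 4 = 3 * p + 2 := by linear_combination (p ^ 2 + p + 2) * hp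
  have h6 : p ^ 6 = 8 * p + 5 := by linear_combination p ^ 2 * h4 + (3 * p + 5) * hp
  have h8 : p ^ 8 = 21 * p + 13 := by linear_combination p ^ 2 * h6 + (8 * p + 13) * hp
  have h10 : p ^ 10 = 55 * p + 34 := by linear_combination p ^ 2 * h8 + (21 * p + 34) * hp
  have h12 : p ^ 12 = 144 * p + 89 := by linear_combination p ^ 2 * h10 + (55 * p + 89) * hp
  have h14 : p ^ 14 = 377 * p + 233 := by linear_combination p ^ 2 * h12 + (144 * p + 233) * hp
  rw [← hp, ← h4, ← h6, ← h8, ← h10, ← h12, ← h14]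
  ring

noncomputable def M (p : ℂ) : Matrix (Fin 6) (Fin 3) ℂ :=
  !![0, 1, p; 0, 1, -p; 1, p, 0; Complex.I, -(Complex.I * p), 0;
    Complex.I * p, 0, Complex.I; -(Complex.I * p), 0, Complex.I]

lemma M_apply (p : ℂ) (v : Fin 3 → ℂ) : (M p).mulVec v =
    ![v 1 + p * v 2, v 1 - p * v 2, v 0 + p * v 1, Complex.I * (v 0 - p * v 1),
      Complex.I * (v 2 + p * v 0), Complex.I * (v 2 - p * v 0)] := by
  funext i
  fin_cases i <;> simp [M, Matrix.mulVec, dotProduct, Fin.sum_univ_three] <;> ring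

lemma exK : ∃ K : Conic, K.OnX 14 ∧ ¬ K.Degenerate := by
  obtain ⟨p, hp⟩ : ∃ p : ℂ, p ^ 2 = p + 1 := by
    refine ⟨((Real.goldenRatio : ℝ) : ℂ), ?_⟩
    exact_mod_cast Real.goldenRatio_sq
  have hp0 : p ≠ 0 := by rintro rfl; simp at hp
  have hI := Complex.I_ne_zero
  refine ⟨⟨Matrix.toLin' (M p), ?_, Q0, Q0_nondeg⟩, ?_, ?_⟩
  · rw [injective_iff_map_eq_zero]
    intro v hv
    rw [Matrix.toLin'_apply, M_apply] at hv
    have h0 := congrFun hv 0
    have h1 := congrFun hv 1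
    have h2 := congrFun hv 2
    simp at h0 h1 h2
    have e1 : v 1 = 0 := by linear_combination h0 / 2 + h1 / 2
    have e2 : v 2 = 0 := by
      have : p * v 2 = 0 := by linear_combination h0 - e1
      exact (mul_eq_zero.1 this).resolve_left hp0
    funext i
    fin_cases i
    · simpa [e1] using h2
    · exact e1
    · exact e2
  · rintro _ ⟨v, hv, rfl⟩
    simp only [Set.mem_ofPred_eq, Q0_apply] at hv
    simp only [Matrix.toLin'_apply, M_apply, F]
    have hI14 : Complex.I ^ 14 = -1 := by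
      rw [show (14 : ℕ) = 2 * 7 from rfl, pow_mul, Complex.I_sq]; norm_num
    have a1 := pair p hp (v 1) (v 2)
    have a2 := pair p hp (v 0) (v 1)
    have a3 := pair p hp (v 2) (v 0)
    have hz : v 2 ^ 2 = - v 0 ^ 2 - v 1 ^ 2 := by linear_combination hv
    rw [hz] at a1 a3
    simp [mul_pow, hI14]
    linear_combination a1 + a2 + a3
  · rintro ⟨i, j, hij, a, b, hab, h⟩
    have key : ∀ v : Fin 3 → ℂ, v 0 ^ 2 + v 1 ^ 2 + v 2 ^ 2 = 0 →
        a * (M p).mulVec v i - b * (M p).mulVec v j = 0 := fun v hv =>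
      h _ ⟨v, by simp only [Set.mem_ofPred_eq, Q0_apply]; exact hv, rfl⟩
    have k1 := key ![1, Complex.I, 0] (by simp)
    have k2 := key ![1, -Complex.I, 0] (by simp)
    have k3 := key ![1, 0, Complex.I] (by simp)
    simp only [Matrix.mulVec, dotProduct, Fin.sum_univ_three] at k1 k2 k3
    simp at k1 k2 k3
    have r0 : a * M p i 0 = b * M p j 0 := by linear_combination k1 / 2 + k2 / 2
    have r1 : a * M p i 1 = b * M p j 1 := by
      apply mul_left_cancel₀ hI; linear_combination k1 - r0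
    have r2 : a * M p i 2 = b * M p j 2 := by
      apply mul_left_cancel₀ hI; linear_combination k3 - r0
    clear k1 k2 k3 key h
    have r : ∀ k, a * M p i k = b * M p j k := by
      intro k; fin_cases k <;> assumption
    have hm : ∀ k l, M p i k * M p j l - M p i l * M p j k = 0 := by
      intro k l
      rcases hab with ha | hb
      · apply mul_left_cancel₀ ha
        linear_combination M p j l * r k - M p j k * r l
      · apply mul_left_cancel₀ hb
        linear_combination M p i k * (r l).symm - M p i l * (r k).symm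
    have m1 := hm 0 1
    have m2 := hm 0 2
    have m3 := hm 1 2
    clear hm r r0 r1 r2 hab
    fin_cases i <;> fin_cases j <;> simp [M, hp0] at hij m1 m2 m3
    · exact hp0 (by linear_combination (-1 / 2 : ℂ) * m3)
    · exact mul_ne_zero hI hp0 (by linear_combination (-1 / 2 : ℂ) * m1)
    · exact mul_ne_zero hI (mul_ne_zero hI hp0) (by linear_combination (1 / 2 : ℂ) * m2)
    · exact mul_ne_zero hI (mul_ne_zero hI hp0) (by linear_combination (-1 / 2 : ℂ) * m2)

theorem result : IsLeast {d0 : ℕ | 0 < d0 ∧ ∀ d, d0 ≤ d → ∀ K : Conic, K.OnX d → K.Degenerate}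
    15 := by
  refine ⟨⟨by norm_num, upper⟩, ?_⟩
  rintro d0 ⟨_, h⟩
  by_contra hlt
  obtain ⟨K, h1, h2⟩ := exK
  exact h2 (h 14 (by omega) K h1)

end Pool.Agent.Results.MP_cd75ba_ag.Fifteen
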